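import Pool.Agent.KS6_69.Ric.SC.Main

set_option autoImplicit false

/-!
# MP_93b649_gt: nearly quadratic decay of all sectional curvatures does not help

For every `ε > 0` there is a counterexample to Q1 whose sectional curvatures are not only
nonpositive, but at most `-A / (1 + ρ) ^ (2 + ε)`; moreover it contains the complex line
`ℂ × {0}`.  (With `ε = 0` the manifold would be complete hyperbolic by Yang's theorem.)

The manifold is a disc bundle `{(z, w) : |w|² k(z) < 1}` over a complete parabolic surface
`(ℂ, g₀)`, as in the earlier run.  New: a quantitative form of the curvature inequality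
(`SC.star_strict`), which bounds all sectional curvatures over `z` by `-1 / (64 g₀ (T V + T²))`,
uniformly on the (noncompact) fibre, and a one-parameter family of base metrics
`g₀ = Λ exp (80 m u)`, for which the right-hand side is at least a constant times
`(1 + ρ) ^ (-2 - 1/m)` in absolute value.
-/

namespace Pool.Agent.Results.MP_93b649_gt.NearCriticalDecay

open Pool.Agent.KS6_69.Ric.H269.KdDefs Pool.Agent.KS6_69.Ric.H662.RicDefs
open Pool.Agent.KS6_69.Ric.SC

/-- For every `ε > 0` there are a simply connected open set `U ⊆ ℂ²`, a complete Kähler metric `g`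
on `U`, a point `p₀ ∈ U` and constants `A, A' > 0` such that, `ρ` being the Riemannian distance to
`p₀`, all sectional curvatures are `≤ -A / (1 + ρ) ^ (2 + ε)` and `Ric ≤ -A' / (1 + ρ²)`, while
every bounded holomorphic function on `U` is constant; moreover `U` contains the complex line
`ℂ × {0}`. -/
theorem result (ε : ℝ) (hε : 0 < ε) :
    ∃ (U : Set (ℂ × ℂ)) (g : ℂ × ℂ → LinearMap.BilinForm ℝ (ℂ × ℂ)) (p₀ : ℂ × ℂ),
      IsOpen U ∧ SimplyConnectedSpace U ∧ IsKahlerMetricOn U g ∧ IsCompleteFor U g ∧ p₀ ∈ U ∧
      HasSectionalDecay U g p₀ (2 + ε) ∧ HasRicciDecay U g p₀ ∧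
      (∀ z : ℂ, (z, 0) ∈ U) ∧
      ∀ f : ℂ × ℂ → ℂ, IsBddHol U f → ∃ c : ℂ, ∀ p ∈ U, f p = c :=
  main ε hε

end Pool.Agent.Results.MP_93b649_gt.NearCriticalDecay
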